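import Pool.Agent.helper11.OFP.Spec

/-! # Row ofp:FMS (MP_90e158_lc) -/

set_option autoImplicit false

open MeasureTheory

namespace Pool.Agent.OFP

open Pool.Agent.LOF

theorem FMS (hHCS : HCS_stmt) (hCMP : CMP_stmt) : FMS_stmt := by
  intro h a b ha hb
  have h1 : {r : LO F | ∃ t ∈ FH r h, a ≤ t ∧ t ≤ b} =
      ⋂ A : Finset F, {r : LO F | (∀ g ∈ A, g ∈ Hc r h) →
        ∃ t : ℝ, a ≤ t ∧ t ≤ b ∧ ∀ g ∈ A, g.1 t = t} := by
    ext r
    simp only [Set.mem_ofPred_eq, Set.mem_iInter]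
    exact hCMP (Hc r h : Set F) a b ha hb
  rw [h1]
  refine MeasurableSet.iInter fun A => ?_
  have h2 : MeasurableSet {r : LO F | ∀ g ∈ A, g ∈ Hc r h} := by
    have h3 : {r : LO F | ∀ g ∈ A, g ∈ Hc r h} = ⋂ g ∈ A, {r : LO F | g ∈ Hc r h} := by
      ext r
      simp
    rw [h3]
    exact Finset.measurableSet_biInter A fun g _ => hHCS g h
  by_cases h4 : ∃ t : ℝ, a ≤ t ∧ t ≤ b ∧ ∀ g ∈ A, g.1 t = t
  · have h5 : {r : LO F | (∀ g ∈ A, g ∈ Hc r h) →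
        ∃ t : ℝ, a ≤ t ∧ t ≤ b ∧ ∀ g ∈ A, g.1 t = t} = Set.univ := by
      ext r
      simp only [Set.mem_ofPred_eq, Set.mem_univ, iff_true]
      exact fun _ => h4
    rw [h5]
    exact MeasurableSet.univ
  · have h5 : {r : LO F | (∀ g ∈ A, g ∈ Hc r h) →
        ∃ t : ℝ, a ≤ t ∧ t ≤ b ∧ ∀ g ∈ A, g.1 t = t} = {r : LO F | ∀ g ∈ A, g ∈ Hc r h}ᶜ := by
      ext r
      simp only [Set.mem_ofPred_eq, Set.mem_compl_iff]
      constructor
      · intro h6 h7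
        exact h4 (h6 h7)
      · intro h6 h7
        exact absurd h7 h6
    rw [h5]
    exact h2.compl

end Pool.Agent.OFP
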